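import Mathlib
import Pool.Agent.D0H38.TC.LogExt

/-!
# Extending precolourings of arbitrary sparse parts to total colourings

Let `G` be any graph with all degrees at most `D`, and let `W` be a set of vertices such that each vertex
of `G` has at most `m` neighbours in `W`. Every precolouring of the vertices in `W` and of the edges of
a subgraph `H` with ends in `W` extends to a total colouring of `G` with `K` colours, as soon as
`K ≥ D + 2 m + 2500 (1 + log (D + 1))`. The number of the additional colours does not depend on the
number of the vertices, and `m` enters only through the summand `2 m`.

Method. The vertices are coloured greedily. By Vizing's theorem the edges outside `H` are properly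
coloured with `0, …, D`. The random Kempe changes of the starting library (`S_EDGE`) give a proper
colouring `c` of all of them but a subgraph of maximum degree `O(log D)`, such that each vertex `v` has only
`O(log D)` edges `v u` with the colour of `u`. The other forbidden colours need no randomness: an edge
`v u` is also bad if `c (v u)` is the colour of an edge of `H` at `v` or at `u`. The edges of the first
kind are at most as many as the edges of `H` at `v`, since `c` is proper, and those of the second kind
at most as many as the neighbours of `v` in `W` that are joined to `v` by edges outside `H`. Thus the bad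
edges and the new colours that are forbidden at `v` are together at most `m + 1 + O(log D)`,
and the bad edges are recoloured greedily with the additional colours.
-/

set_option autoImplicit false

namespace Pool.Agent.Results.MP_db9399_co.DegreeOnly

/-- `f` (colours of the vertices) and `g` (colours of the edges) form a total colouring of `G`
with colours from `Fin K`: adjacent vertices have different colours, edges that share an end have
different colours, and the colour of an edge differs from the colours of its ends.  (The values of
`g` on pairs that are not edges, and the values of `f` on isolated vertices, are irrelevant.) -/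
def IsTotal {V : Type} (G : SimpleGraph V) {K : ℕ} (f : V → Fin K) (g : Sym2 V → Fin K) : Prop :=
  (∀ u v, G.Adj u v → f u ≠ f v) ∧
  (∀ u v w, G.Adj u v → G.Adj u w → v ≠ w → g s(u, v) ≠ g s(u, w)) ∧
  ∀ u v, G.Adj u v → g s(u, v) ≠ f u

/-- The vertices in `W` are coloured by `f0` and the edges of `H`, a subgraph of `G` with ends in `W`,
are coloured by `g0`; the colouring is proper in `G`: vertices in `W` that are adjacent in `G` have
different colours, edges of `H` that share an end have different colours, and the colour of an
edge of `H` differs from the colours of its ends. -/
structure IsPrecolouring {V : Type} (G H : SimpleGraph V) (W : Set V) {K : ℕ} (f0 : V → Fin K)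
    (g0 : Sym2 V → Fin K) : Prop where
  le : H ≤ G
  ends : ∀ u v, H.Adj u v → u ∈ W
  vert : ∀ u ∈ W, ∀ v ∈ W, G.Adj u v → f0 u ≠ f0 v
  edge : ∀ u v w, H.Adj u v → H.Adj u w → v ≠ w → g0 s(u, v) ≠ g0 s(u, w)
  inc : ∀ u v, H.Adj u v → g0 s(u, v) ≠ f0 u

/-- For every graph `G` with all degrees at most `D`, every set `W` of vertices such that each vertex of
`G` has at most `m` neighbours in `W`, every subgraph `H` of `G` with ends in `W`, and every
`K ≥ D + 2 m + 2500 (1 + log (D + 1))`: every precolouring of `W` and `H` with `K` colours extends to a
total colouring of `G` with the same `K` colours. -/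
theorem result (V : Type) [Fintype V] (G H : SimpleGraph V) (W : Set V) (D m K : ℕ)
    (hD : ∀ v, (G.neighborSet v).ncard ≤ D) (hm : ∀ v, (G.neighborSet v ∩ W).ncard ≤ m)
    (hK : (D : ℝ) + 2 * m + 2500 * (1 + Real.log (D + 1)) ≤ K)
    (f0 : V → Fin K) (g0 : Sym2 V → Fin K) (h : IsPrecolouring G H W f0 g0) :
    ∃ (f : V → Fin K) (g : Sym2 V → Fin K), IsTotal G f g ∧ (∀ u ∈ W, f u = f0 u) ∧
      ∀ u v, H.Adj u v → g s(u, v) = g0 s(u, v) :=
  Pool.Agent.D0H38.TC.logmain G H W D m K hD h.le h.ends hm hK f0 g0 h.vert h.edge h.inc

end Pool.Agent.Results.MP_db9399_co.DegreeOnly
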