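import Mathlib
import Pool.Agent.D0H55.TE.Main
import Pool.Agent.D0H55.TE.Asym

/-!
# Extending total colourings with `Δ + (1 + o(1)) log n / log log n` colours

Let `G` be any graph on `n` vertices of maximum degree at most `D`. A total colouring of a
distance-3 matching with `K` colours extends to a total colouring of `G` with `K` colours as soon as
`K ≥ D + (1 + ε) log n / log log n` and `n` is large in terms of `ε`. No condition on the distances
is needed for this: the same bound holds for all matchings, and for all subgraphs `H` of bounded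
degree together with any set of precoloured vertices, if the precolouring is proper in `G`.

Method (after McDiarmid and Reed, *On total colourings of graphs*, 1993, which is the case without
precoloured edges and vertices). Extend the vertex colouring greedily and colour the edges outside
`H` by Vizing's theorem with `D + 1` matchings, to which the colours `0, …, D` are assigned by a random
permutation. The bad edges are those whose colour is forbidden at one of their ends, where it is the
colour of the vertex or of an edge of `H`. With positive probability no vertex `v` has `k`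
neighbours `w` such that the colour of `v w` is forbidden at `w`, if `n (m + 1) ^ k ≤ k!`. Every bad
edge has an end at which its colour is forbidden, and at most `m + 1` are charged to each vertex,
so the bad edges form a graph of maximum degree at most `m + k` all of whose subgraphs have a vertex of
degree at most `2 (m + 1)`. Its edges are coloured greedily with the remaining colours.
-/

set_option autoImplicit false

namespace Pool.Agent.Results.MP_db9399_co.FewExtraColours

/-- `f` (colours of the vertices) and `g` (colours of the edges) form a total colouring of `G`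
with colours from `Fin K`: adjacent vertices have different colours, edges that share an end have
different colours, and the colour of an edge differs from the colours of its ends.  (The values of
`g` on pairs that are not edges, and the values of `f` on isolated vertices, are irrelevant.) -/
def IsTotal {V : Type} (G : SimpleGraph V) {K : ℕ} (f : V → Fin K) (g : Sym2 V → Fin K) : Prop :=
  (∀ u v, G.Adj u v → f u ≠ f v) ∧
  (∀ u v w, G.Adj u v → G.Adj u w → v ≠ w → g s(u, v) ≠ g s(u, w)) ∧
  ∀ u v, G.Adj u v → g s(u, v) ≠ f u

/-- The vertices in `W` are coloured by `f0` and the edges of `H`, a subgraph of `G` with ends in `W`,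
are coloured by `g0`; the colouring is proper in `G`: vertices in `W` that are adjacent in `G` have
different colours, edges of `H` that share an end have different colours, and the colour of an
edge of `H` differs from the colours of its ends. -/
structure IsPrecolouring {V : Type} (G H : SimpleGraph V) (W : Set V) {K : ℕ} (f0 : V → Fin K)
    (g0 : Sym2 V → Fin K) : Prop where
  le : H ≤ G
  ends : ∀ u v, H.Adj u v → u ∈ W
  vert : ∀ u ∈ W, ∀ v ∈ W, G.Adj u v → f0 u ≠ f0 v
  edge : ∀ u v w, H.Adj u v → H.Adj u w → v ≠ w → g0 s(u, v) ≠ g0 s(u, w)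
  inc : ∀ u v, H.Adj u v → g0 s(u, v) ≠ f0 u

/-- Every precolouring with `K` colours of a set `W` of vertices and of a subgraph `H` with all degrees
at most `m` extends to a total colouring of `G` with `K` colours. -/
def Extends {V : Type} (G : SimpleGraph V) (m K : ℕ) : Prop :=
  ∀ (H : SimpleGraph V) (W : Set V) (f0 : V → Fin K) (g0 : Sym2 V → Fin K),
    (∀ v, (H.neighborSet v).ncard ≤ m) → IsPrecolouring G H W f0 g0 →
    ∃ (f : V → Fin K) (g : Sym2 V → Fin K), IsTotal G f g ∧ (∀ u ∈ W, f u = f0 u) ∧
      ∀ u v, H.Adj u v → g s(u, v) = g0 s(u, v)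

/-- 1. Let `G` be a graph with all degrees at most `D`, with `n` vertices, and let `k ≥ 1` be such that
`n (m + 1) ^ k ≤ k!`. Then all precolourings of subgraphs of maximum degree at most `m` (and of any set
of vertices containing its ends) with `K ≥ D + k + 5 m + 3` colours extend to `G`.

2. For all `m` and `ε > 0` and all graphs `G` with sufficiently many vertices it is enough that
`K ≥ D + (1 + ε) log n / log log n`.

3. In particular, for `ε > 0` and for all graphs `G` with sufficiently many vertices, every total
colouring of a distance-3 matching of `G` with `K ≥ D + (1 + ε) log n / log log n` colours extends to a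
total colouring of `G` with `K` colours. -/
theorem result :
    (∀ (V : Type) [Fintype V] (G : SimpleGraph V) (D m k K : ℕ),
      (∀ v, (G.neighborSet v).ncard ≤ D) → 0 < k →
      Fintype.card V * (m + 1) ^ k ≤ k.factorial → D + k + 5 * m + 3 ≤ K → Extends G m K) ∧
    (∀ (m : ℕ) (ε : ℝ), 0 < ε → ∃ n₀ : ℕ, ∀ (V : Type) [Fintype V] (G : SimpleGraph V) (D K : ℕ),
      n₀ ≤ Fintype.card V → (∀ v, (G.neighborSet v).ncard ≤ D) →
      (D : ℝ) + (1 + ε) * (Real.log (Fintype.card V) / Real.log (Real.log (Fintype.card V))) ≤ K →
      Extends G m K) ∧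
    (∀ ε : ℝ, 0 < ε → ∃ n₀ : ℕ, ∀ (V : Type) [Fintype V] (G H : SimpleGraph V) (D K : ℕ),
      n₀ ≤ Fintype.card V → (∀ v, (G.neighborSet v).ncard ≤ D) →
      (D : ℝ) + (1 + ε) * (Real.log (Fintype.card V) / Real.log (Real.log (Fintype.card V))) ≤ K →
      H ≤ G → (∀ u v w, H.Adj u v → H.Adj u w → v = w) →
      (∀ u v x y, H.Adj u v → H.Adj x y → s(u, v) ≠ s(x, y) → 3 ≤ G.edist u x) →
      ∀ (f0 : V → Fin K) (g0 : Sym2 V → Fin K), IsTotal H f0 g0 →
        ∃ (f : V → Fin K) (g : Sym2 V → Fin K), IsTotal G f g ∧
          ∀ u v, H.Adj u v → f u = f0 u ∧ g s(u, v) = g0 s(u, v)) := by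
  have h1 : ∀ (V : Type) [Fintype V] (G : SimpleGraph V) (D m k K : ℕ),
      (∀ v, (G.neighborSet v).ncard ≤ D) → 0 < k →
      Fintype.card V * (m + 1) ^ k ≤ k.factorial → D + k + 5 * m + 3 ≤ K → Extends G m K := by
    intro V _ G D m k K hD hk0 hk hK H W f0 g0 hm h
    exact Pool.Agent.D0H55.TE.main G H W D m k K hD h.le h.ends hm hk0 hk hK f0 g0 h.vert h.edge
      h.inc
  have h2 : ∀ (m : ℕ) (ε : ℝ), 0 < ε → ∃ n₀ : ℕ, ∀ (V : Type) [Fintype V] (G : SimpleGraph V)
      (D K : ℕ), n₀ ≤ Fintype.card V → (∀ v, (G.neighborSet v).ncard ≤ D) →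
      (D : ℝ) + (1 + ε) * (Real.log (Fintype.card V) / Real.log (Real.log (Fintype.card V))) ≤ K →
      Extends G m K := by
    intro m ε hε
    obtain ⟨n₀, hn₀⟩ := Filter.eventually_atTop.1 (Pool.Agent.D0H55.TE.exists_k m ε hε)
    refine ⟨n₀, ?_⟩
    intro V _ G D K hn hD hK
    obtain ⟨k, hk0, hk, hk2⟩ := hn₀ _ hn
    refine h1 V G D m k K hD hk0 hk ?_
    have h3 : ((D + k + 5 * m + 3 : ℕ) : ℝ) ≤ K := by
      push_cast
      linarith
    exact_mod_cast h3
  refine ⟨h1, h2, ?_⟩
  intro ε hε
  obtain ⟨n₀, hn₀⟩ := h2 1 ε hε
  refine ⟨n₀, ?_⟩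
  intro V _ G H D K hn hD hK hHG hmatch hdist f0 g0 h0
  have hm : ∀ v, (H.neighborSet v).ncard ≤ 1 := by
    intro v
    rw [Set.ncard_le_one (Set.toFinite _)]
    intro a ha b hb
    exact hmatch v a b ha hb
  have hW : ∀ u ∈ {v | ∃ x, H.Adj v x}, ∀ v ∈ {v | ∃ x, H.Adj v x}, G.Adj u v → f0 u ≠ f0 v := by
    rintro u ⟨x, hx⟩ v ⟨y, hy⟩ huv
    by_cases h : H.Adj u v
    · exact h0.1 u v h
    · exfalso
      have hne : s(u, x) ≠ s(v, y) := by
        intro he
        rw [Sym2.eq_iff] at he
        rcases he with ⟨rfl, -⟩ | ⟨rfl, rfl⟩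
        · exact huv.ne rfl
        · exact h hx
      have h3 := hdist u x v y hx hy hne
      have h4 : G.edist u v = 1 := SimpleGraph.edist_eq_one_iff_adj.2 huv
      rw [h4] at h3
      exact absurd h3 (by norm_num)
  obtain ⟨f, g, hfg, hf, hg⟩ := hn₀ V G D K hn hD hK H {v | ∃ x, H.Adj v x} f0 g0 hm
    ⟨hHG, fun u v h => ⟨v, h⟩, hW, h0.2.1, h0.2.2⟩
  exact ⟨f, g, hfg, fun u v h => ⟨hf u ⟨v, h⟩, hg u v h⟩⟩

end Pool.Agent.Results.MP_db9399_co.FewExtraColours
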