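import Mathlib
import Pool.Agent.D0H38.TD.DenseMain
import Pool.Agent.D0H38.TD.DenseMin
import Pool.Agent.D0H38.TD.Exact6
import Pool.Agent.D0H2.TD.Perm
import Pool.Agent.D0H2.TD.Pm2
import Pool.Agent.D0H2.TD.Dec2
import Pool.Agent.D0H58.TE.Vb
import Pool.Agent.D0H58.TE.Vsp
import Pool.Agent.D0H20.TE.Hall2
import Pool.Agent.D0H20.TE.Sum
import Pool.Agent.D0H9.TE.Bin
import Pool.Agent.D0H87.TE.Cnt
import Pool.Agent.D0H2.TE.Blk2
import Pool.Agent.D0H2.TE.Spc2
import Pool.Agent.D0H2.TE.Cnt2
/-!
# Total colourings of graphs of large degrees and small chromatic number with `Δ + 2` colours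

Let `G` be a graph with `n` vertices, all degrees between `δ` and `D`, and a proper vertex colouring with `c`
colours. If `D ≥ n / 2 + 2 c + 2 √n` or `δ ≥ n / 2 + c + √(2 n)`, then `G` has a total colouring with `D + 2`
colours. If `D ≥ n / 2 + 2 c + 2 √n + 60` or `δ ≥ n / 2 + c + √(2 n)`, then `G` satisfies the statement of Q1: every
total colouring of a distance-3 matching with `K ≥ D + 2` colours extends to `G`. There is no condition on
the minimum degree if `D` is large.

Method for the total colourings. Let `L` be the set of the vertices of degree more than `D - k`, where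
`k ≤ √n / 2 + c + 1`. The colour classes are divided into `k` disjoint independent sets `I_i` of about `2 √n`
vertices such that `|L \ I_i|` is even (or `L` is small), at most `D - k + 1` vertices are in no `I_i`. As the
vertices of `L` have degrees greater than `n / 2 + k + √n`, there are disjoint matchings `M_i` in `G - I_i`
which cover `L \ I_i` (a variant of Dirac's theorem). The colour `i < k` is given to `I_i` and `M_i`. The
remaining edges and new edges from a new vertex `z` to the vertices in no `I_i` form a graph of maximum degree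
at most `D - k + 1`, whose edges are coloured with `D - k + 2` colours by Vizing's theorem; the colour of the
new edge `z r` is the colour of the vertex `r`.

Method for Q1. Let `U` be the set of the vertices of `H`. The edges of `H` are removed, the vertices of `U` are
divided into six bins of total degree at most `D - k + 1` in which no two vertices have a common neighbour, and
each bin is identified to one vertex before Vizing's theorem is used. The colours `a` that are frequent at `U` (at
most 16) are used for matchings `M_a` which avoid all vertices of `U` at which the colour `a` is given, and for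
sets `I_a` with at most one vertex outside `U`, which make the number of the vertices of `L` to be covered even.
For at most two of these colours there is no such vertex (almost all vertices of `L` have a neighbour in `U`
with this colour); then `M_a` misses one vertex of `L` (and a form of Vizing's theorem with an independent set of
vertices of full degree is used). The independent sets `I_i` get names which are not in conflict with them
(each is in conflict with at most `2 |I_i|` names); their matchings avoid `U`, except for the at most two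
vertices of `U` of large degree. Because of the bins every colour of Vizing's theorem is in conflict with at
most 14 names, and every name which is not frequent with at most `n / 2` colours, so Hall's theorem gives
names to the colours.
-/

set_option autoImplicit false

namespace Pool.Agent.Results.MP_db9399_co.LargeMaximumDegree

/-- `f` (colours of the vertices) and `g` (colours of the edges) form a total colouring of `G`
with colours from `Fin K`: adjacent vertices have different colours, edges that share an end have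
different colours, and the colour of an edge differs from the colours of its ends.  (The values of
`g` on pairs that are not edges are irrelevant.) -/
def IsTotal {V : Type} (G : SimpleGraph V) {K : ℕ} (f : V → Fin K) (g : Sym2 V → Fin K) : Prop :=
  (∀ u v, G.Adj u v → f u ≠ f v) ∧
  (∀ u v w, G.Adj u v → G.Adj u w → v ≠ w → g s(u, v) ≠ g s(u, w)) ∧
  ∀ u v, G.Adj u v → g s(u, v) ≠ f u

/-- The edges of `H` form a distance-3 matching of `G`: they are edges of `G`, no two of them share an
end, and the ends of different edges are at distance at least `3` in `G`. -/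
structure IsDistThreeMatching {V : Type} (G H : SimpleGraph V) : Prop where
  le : H ≤ G
  matching : ∀ u v w, H.Adj u v → H.Adj u w → v = w
  dist : ∀ u v x y, H.Adj u v → H.Adj x y → s(u, v) ≠ s(x, y) → 3 ≤ G.edist u x

/-- `H` is a subgraph of `G` with at most one edge. -/
structure AtMostOneEdge {V : Type} (G H : SimpleGraph V) : Prop where
  le : H ≤ G
  one : ∀ u v x y, H.Adj u v → H.Adj x y → s(u, v) = s(x, y)

/-- Every total colouring of `H` with `K` colours extends to a total colouring of `G` with `K`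
colours (the vertices of `H` are the ends of its edges). -/
def Extends {V : Type} (G H : SimpleGraph V) (K : ℕ) : Prop :=
  ∀ (f0 : V → Fin K) (g0 : Sym2 V → Fin K), IsTotal H f0 g0 →
    ∃ (f : V → Fin K) (g : Sym2 V → Fin K), IsTotal G f g ∧
      ∀ u v, H.Adj u v → f u = f0 u ∧ g s(u, v) = g0 s(u, v)

theorem one_edge (hP : Pool.Agent.D0H38.TD.S_PERM) {V : Type} (G H : SimpleGraph V) (K : ℕ)
    (h : ∃ (f : V → Fin K) (g : Sym2 V → Fin K), IsTotal G f g) (hH : AtMostOneEdge G H) :
    Extends G H K := by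
  intro f0 g0 h0
  obtain ⟨f, g, hfg⟩ := h
  by_cases hE : ∃ u v, H.Adj u v
  · obtain ⟨u, v, huv⟩ := hE
    have huv' := hH.le huv
    obtain ⟨σ, s1, s2, s3⟩ := hP K (f u) (f v) (g s(u, v)) (f0 u) (f0 v) (g0 s(u, v))
      (hfg.1 u v huv') (hfg.2.2 u v huv').symm
      (by
        have := hfg.2.2 v u huv'.symm
        rw [Sym2.eq_swap] at this
        exact this.symm)
      (h0.1 u v huv) (h0.2.2 u v huv).symm
      (by
        have := h0.2.2 v u huv.symm
        rw [Sym2.eq_swap] at this
        exact this.symm)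
    refine ⟨fun x => σ (f x), fun e => σ (g e), ⟨?_, ?_, ?_⟩, ?_⟩
    · intro a b hab e
      exact hfg.1 a b hab (σ.injective e)
    · intro a b d hab had hbd e
      exact hfg.2.1 a b d hab had hbd (σ.injective e)
    · intro a b hab e
      exact hfg.2.2 a b hab (σ.injective e)
    · intro a b hab
      have he := hH.one u v a b huv hab
      refine ⟨?_, by rw [← he]; exact s3⟩
      rw [Sym2.eq_iff] at he
      rcases he with ⟨rfl, rfl⟩ | ⟨rfl, rfl⟩
      · exact s1
      · exact s2
  · push Not at hE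
    exact ⟨f, g, hfg, fun u v huv => absurd huv (hE u v)⟩

theorem main (hPM : Pool.Agent.D0H38.TD.S_PM2) (hDEC2 : Pool.Agent.D0H38.TD.S_DEC2)
    (hDEC3 : Pool.Agent.D0H38.TD.S_DEC3) {V : Type} [Fintype V] (G : SimpleGraph V) (D c K : ℕ)
    (hD : ∀ v, (G.neighborSet v).ncard ≤ D) (hG : G.Colorable c)
    (h : (Fintype.card V : ℝ) / 2 + 2 * c + 2 * Real.sqrt (Fintype.card V) ≤ D)
    (hK : D + 2 ≤ K) : ∃ (f : V → Fin K) (g : Sym2 V → Fin K), IsTotal G f g := by
  classical
  have hK0 : 0 < K := by omega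
  have : NeZero K := ⟨hK0.ne'⟩
  rcases isEmpty_or_nonempty V with hV | hV
  · exact ⟨fun _ => 0, fun _ => 0, fun u => isEmptyElim u, fun u => isEmptyElim u,
      fun u => isEmptyElim u⟩
  set n : ℕ := Fintype.card V with hn
  have hn1 : 1 ≤ n := Fintype.card_pos
  have hn1' : (1 : ℝ) ≤ n := by exact_mod_cast hn1
  set y : ℝ := Real.sqrt n with hy
  have hy1 : 1 ≤ y := by
    rw [hy, Real.one_le_sqrt]
    exact hn1'
  have hyy : y * y = n := Real.mul_self_sqrt (by positivity)
  set s : ℕ := ⌈2 * y⌉₊ with hs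
  have hs1 : 2 * y ≤ s := Nat.le_ceil _
  have hs2 : (s : ℝ) < 2 * y + 1 := Nat.ceil_lt_add_one (by positivity)
  have hs0 : 1 ≤ s := by
    have : (1 : ℝ) ≤ s := by linarith
    exact_mod_cast this
  have hq : ((n / s : ℕ) : ℝ) ≤ y / 2 := by
    refine Nat.cast_div_le.trans ?_
    rw [div_le_iff₀ (by linarith)]
    nlinarith
  have hM : n + s + 4 * (n / s + c) ≤ 2 * D + 2 := by
    have h1 : ((n + s + 4 * (n / s + c) : ℕ) : ℝ) ≤ ((2 * D + 2 : ℕ) : ℝ) := by
      push_cast
      linarith
    exact_mod_cast h1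
  obtain ⟨f, g, gs, fp, gp, gf, f2, g2⟩ := Pool.Agent.D0H38.TD.dense hPM hDEC2 hDEC3 G D c s hD hG
    hs0 hM
  have fK : ∀ u, f u < K := fun u => (f2 u).trans_le hK
  have gK : ∀ u v, G.Adj u v → g u v < K := fun u v h => (g2 u v h).trans_le hK
  let gg : Sym2 V → Fin K := Sym2.lift ⟨fun u v => if h : G.Adj u v then ⟨g u v, gK u v h⟩ else 0, by
    intro u v
    by_cases h : G.Adj u v
    · simp only [dif_pos h, dif_pos h.symm]
      exact Fin.ext (gs u v h)
    · simp only [dif_neg h, dif_neg (fun h' : G.Adj v u => h h'.symm)]⟩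
  have hgg : ∀ u v (h : G.Adj u v), gg s(u, v) = ⟨g u v, gK u v h⟩ := by
    intro u v h
    simp only [gg, Sym2.lift_mk, dif_pos h]
  refine ⟨fun v => ⟨f v, fK v⟩, gg, ?_, ?_, ?_⟩
  · intro u v h e
    exact fp u v h (Fin.mk.inj e)
  · intro u v w h h' hne e
    rw [hgg u v h, hgg u w h'] at e
    exact gp u v w h h' hne (Fin.mk.inj e)
  · intro u v h e
    rw [hgg u v h] at e
    exact gf u v h (Fin.mk.inj e)

theorem one_of_edist {V : Type} {G H : SimpleGraph V} (h2 : ∀ u v, G.edist u v ≤ 2)
    (hH : IsDistThreeMatching G H) : AtMostOneEdge G H := by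
  refine ⟨hH.le, ?_⟩
  intro u v x y huv hxy
  by_contra hne
  have h3 := (hH.dist u v x y huv hxy hne).trans (h2 u x)
  exact absurd h3 (by decide)

theorem covered {V : Type} {G H : SimpleGraph V} (hH : IsDistThreeMatching G H) :
    (∀ u v, G.Adj u v → (∃ x, H.Adj u x) → (∃ y, H.Adj v y) → H.Adj u v) ∧
    (∀ q p p', G.Adj q p → G.Adj q p' → (∃ x, H.Adj p x) → (∃ y, H.Adj p' y) → p ≠ p' →
      H.Adj p p') := by
  constructor
  · rintro u v huv ⟨x, hx⟩ ⟨y, hy⟩
    by_contra h
    have hne : s(u, x) ≠ s(v, y) := by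
      intro he
      rw [Sym2.eq_iff] at he
      rcases he with ⟨rfl, -⟩ | ⟨rfl, rfl⟩
      · exact huv.ne rfl
      · exact h hx
    have h3 := hH.dist u x v y hx hy hne
    have h4 : G.edist u v = 1 := SimpleGraph.edist_eq_one_iff_adj.2 huv
    rw [h4] at h3
    exact absurd h3 (by norm_num)
  · rintro q p p' h1 h2 ⟨x, hx⟩ ⟨y, hy⟩ hpp
    by_contra h
    have hne : s(p, x) ≠ s(p', y) := by
      intro he
      rw [Sym2.eq_iff] at he
      rcases he with ⟨rfl, -⟩ | ⟨rfl, rfl⟩
      · exact hpp rfl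
      · exact h hx
    have h3 := hH.dist p x p' y hx hy hne
    have h4 : G.edist p q = 1 := SimpleGraph.edist_eq_one_iff_adj.2 h1.symm
    have h5 : G.edist q p' = 1 := SimpleGraph.edist_eq_one_iff_adj.2 h2
    have h6 := SimpleGraph.edist_triangle (G := G) (u := p) (v := q) (w := p')
    rw [h4, h5] at h6
    have h7 := h3.trans h6
    exact absurd h7 (by norm_num)

theorem near {V : Type} [Fintype V] (G : SimpleGraph V) (δ : ℕ)
    (hδ : ∀ v, δ ≤ (G.neighborSet v).ncard) (h : Fintype.card V ≤ 2 * δ) :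
    ∀ u v, G.edist u v ≤ 2 := by
  classical
  intro u v
  by_cases huv : u = v
  · subst huv
    rw [SimpleGraph.edist_self]
    exact bot_le
  by_cases hadj : G.Adj u v
  · rw [SimpleGraph.edist_eq_one_iff_adj.2 hadj]
    norm_num
  have h1 : ∃ w, G.Adj u w ∧ G.Adj v w := by
    by_contra hcon
    push Not at hcon
    have hdis : Disjoint (G.neighborSet u) (G.neighborSet v) := by
      rw [Set.disjoint_left]
      intro w hw hw'
      exact hcon w hw hw'
    have h2 := Set.ncard_union_eq hdis (Set.toFinite _) (Set.toFinite _)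
    have h3 : G.neighborSet u ∪ G.neighborSet v ⊂ Set.univ := by
      rw [Set.ssubset_univ_iff]
      intro e
      have : u ∈ G.neighborSet u ∪ G.neighborSet v := by
        rw [e]
        exact Set.mem_univ u
      rcases this with h | h
      · exact G.loopless.irrefl u h
      · exact hadj h.symm
    have h4 := Set.ncard_lt_ncard h3 (Set.toFinite _)
    rw [Set.ncard_univ, Nat.card_eq_fintype_card] at h4
    have h5 := hδ u
    have h6 := hδ v
    omega
  obtain ⟨w, h1, h2⟩ := h1
  have h3 := SimpleGraph.edist_triangle (G := G) (u := u) (v := w) (w := v)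
  rw [SimpleGraph.edist_eq_one_iff_adj.2 h1, SimpleGraph.edist_eq_one_iff_adj.2 h2.symm] at h3
  exact h3.trans (by norm_num)

theorem main_min (hPM : Pool.Agent.D0H38.TD.S_PM) (hDEC : Pool.Agent.D0H38.TD.S_DEC)
    {V : Type} [Fintype V] (G : SimpleGraph V) (D δ c K : ℕ)
    (hD : ∀ v, (G.neighborSet v).ncard ≤ D) (hδ : ∀ v, δ ≤ (G.neighborSet v).ncard)
    (hG : G.Colorable c)
    (h : (Fintype.card V : ℝ) / 2 + c + Real.sqrt (2 * Fintype.card V) ≤ δ)
    (hK : D + 2 ≤ K) : ∃ (f : V → Fin K) (g : Sym2 V → Fin K), IsTotal G f g := by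
  classical
  have hK0 : 0 < K := by omega
  have : NeZero K := ⟨hK0.ne'⟩
  rcases isEmpty_or_nonempty V with hV | hV
  · exact ⟨fun _ => 0, fun _ => 0, fun u => isEmptyElim u, fun u => isEmptyElim u,
      fun u => isEmptyElim u⟩
  set n : ℕ := Fintype.card V with hn
  have hn1 : 1 ≤ n := Fintype.card_pos
  have hn1' : (1 : ℝ) ≤ n := by exact_mod_cast hn1
  set y : ℝ := Real.sqrt (2 * n) with hy
  have hyy : y * y = 2 * n := Real.mul_self_sqrt (by positivity)
  have hy0 : 0 < y := Real.sqrt_pos.2 (by positivity)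
  obtain ⟨v⟩ := hV
  have hδn : δ + 1 ≤ n := by
    have h1 : G.neighborSet v ⊂ Set.univ := by
      rw [Set.ssubset_univ_iff]
      intro e
      have : v ∈ G.neighborSet v := by
        rw [e]
        exact Set.mem_univ v
      exact G.loopless.irrefl v this
    have h2 := Set.ncard_lt_ncard h1 (Set.toFinite _)
    rw [Set.ncard_univ, Nat.card_eq_fintype_card] at h2
    have h3 := hδ v
    omega
  have hδD : δ ≤ D := (hδ v).trans (hD v)
  obtain ⟨s, hs1, hs2, hs3⟩ : ∃ s : ℕ, y ≤ s ∧ (s : ℝ) < y + 2 ∧ Even (n + s) := by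
    have a1 : y ≤ (⌈y⌉₊ : ℝ) := Nat.le_ceil _
    have a2 : (⌈y⌉₊ : ℝ) < y + 1 := Nat.ceil_lt_add_one hy0.le
    rcases Nat.even_or_odd (n + ⌈y⌉₊) with he | ho
    · exact ⟨⌈y⌉₊, a1, by linarith, he⟩
    · refine ⟨⌈y⌉₊ + 1, ?_, ?_, ?_⟩
      · push_cast
        linarith
      · push_cast
        linarith
      · rw [← add_assoc]
        exact ho.add_one
  have hs0 : 1 ≤ s := by
    have : (0 : ℝ) < s := by linarith
    exact_mod_cast this
  have hq : ((n / s : ℕ) : ℝ) ≤ y / 2 := by
    refine Nat.cast_div_le.trans ?_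
    rw [div_le_iff₀ (by linarith)]
    nlinarith
  have hM : n + s + 2 * (n / s + c) ≤ 2 * δ + 2 := by
    have h1 : ((n + s + 2 * (n / s + c) : ℕ) : ℝ) ≤ ((2 * δ + 2 : ℕ) : ℝ) := by
      push_cast
      linarith
    exact_mod_cast h1
  have hM2 : 2 * c + n / s ≤ D + 1 := by
    have e1 : (δ : ℝ) + 1 ≤ n := by exact_mod_cast hδn
    have e2 : (δ : ℝ) ≤ D := by exact_mod_cast hδD
    have h1 : ((2 * c + n / s : ℕ) : ℝ) ≤ ((D + 1 : ℕ) : ℝ) := by
      push_cast
      linarith
    exact_mod_cast h1
  obtain ⟨f, g, gs, fp, gp, gf, f2, g2⟩ := Pool.Agent.D0H38.TD.dense_min hPM hDEC G D δ c s hD hδ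
    hG hs0 hs3 hM hM2
  have fK : ∀ u, f u < K := fun u => (f2 u).trans_le hK
  have gK : ∀ u v, G.Adj u v → g u v < K := fun u v h => (g2 u v h).trans_le hK
  let gg : Sym2 V → Fin K := Sym2.lift ⟨fun u v => if h : G.Adj u v then ⟨g u v, gK u v h⟩ else 0, by
    intro u v
    by_cases h : G.Adj u v
    · simp only [dif_pos h, dif_pos h.symm]
      exact Fin.ext (gs u v h)
    · simp only [dif_neg h, dif_neg (fun h' : G.Adj v u => h h'.symm)]⟩
  have hgg : ∀ u v (h : G.Adj u v), gg s(u, v) = ⟨g u v, gK u v h⟩ := by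
    intro u v h
    simp only [gg, Sym2.lift_mk, dif_pos h]
  refine ⟨fun v => ⟨f v, fK v⟩, gg, ?_, ?_, ?_⟩
  · intro u v h e
    exact fp u v h (Fin.mk.inj e)
  · intro u v w h h' hne e
    rw [hgg u v h, hgg u w h'] at e
    exact gp u v w h h' hne (Fin.mk.inj e)
  · intro u v h e
    rw [hgg u v h] at e
    exact gf u v h (Fin.mk.inj e)

theorem five (hPM : Pool.Agent.D0H38.TD.S_PM2) (hVB : Pool.Agent.D0H38.TD.S_VB)
    (hHALL : Pool.Agent.D0H38.TD.S_HALL2) (hBIN : Pool.Agent.D0H38.TD.S_BIN)
    (hSUM : Pool.Agent.D0H38.TD.S_SUM) (hSUM1 : Pool.Agent.D0H38.TD.S_SUM1)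
    (hCNT : Pool.Agent.D0H38.TD.S_CNT2) (hSPC : Pool.Agent.D0H38.TD.S_SPC2)
    (hBLK : Pool.Agent.D0H38.TD.S_BLK2)
    {V : Type} [Fintype V] (G : SimpleGraph V) (D c K : ℕ)
    (hD : ∀ v, (G.neighborSet v).ncard ≤ D) (hG : G.Colorable c)
    (h : (Fintype.card V : ℝ) / 2 + 2 * c + 2 * Real.sqrt (Fintype.card V) + 60 ≤ D)
    (hK : D + 2 ≤ K) (H : SimpleGraph V) (hH : IsDistThreeMatching G H) : Extends G H K := by
  classical
  intro f0 g0 h0
  rcases isEmpty_or_nonempty V with hV | hV
  · exact ⟨f0, g0, ⟨fun u => isEmptyElim u, fun u => isEmptyElim u, fun u => isEmptyElim u⟩,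
      fun u => isEmptyElim u⟩
  obtain ⟨D', rfl⟩ : ∃ D', K = D' + 2 := ⟨K - 2, by omega⟩
  have hDD : D ≤ D' := by omega
  obtain ⟨κ⟩ := hG
  set n : ℕ := Fintype.card V with hn
  have hn1 : 1 ≤ n := Fintype.card_pos
  have hn1' : (1 : ℝ) ≤ n := by exact_mod_cast hn1
  have hc' : (0 : ℝ) ≤ c := Nat.cast_nonneg c
  set y : ℝ := Real.sqrt n with hy
  have hyy : y * y = n := Real.mul_self_sqrt (by positivity)
  have hy1 : 1 ≤ y := by
    rw [hy, Real.one_le_sqrt]
    exact hn1'
  have hDr : (n : ℝ) / 2 + 2 * c + 2 * y + 60 ≤ D' := h.trans (by exact_mod_cast hDD)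
  set s : ℕ := ⌈2 * y⌉₊ with hs
  have hs1 : 2 * y ≤ s := Nat.le_ceil _
  have hs2 : (s : ℝ) < 2 * y + 1 := Nat.ceil_lt_add_one (by positivity)
  have hs0 : 1 ≤ s := by
    have : (1 : ℝ) ≤ s := by linarith
    exact_mod_cast this
  have hq : ((n / s : ℕ) : ℝ) ≤ y / 2 := by
    refine Nat.cast_div_le.trans ?_
    rw [div_le_iff₀ (by linarith)]
    nlinarith
  have N1 : n + s + 4 * (n / s + c) + 66 ≤ 2 * D' := by
    have h1 : ((n + s + 4 * (n / s + c) + 66 : ℕ) : ℝ) ≤ ((2 * D' : ℕ) : ℝ) := by
      push_cast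
      linarith
    exact_mod_cast h1
  have N4 : D' ≤ n + (n / s + c + 16) → (n / s + c) + s + 112 ≤ D' := by
    intro hle
    have h2 : (D' : ℝ) ≤ ((n + (n / s + c + 16) : ℕ) : ℝ) := by exact_mod_cast hle
    push_cast at h2
    have h3 : (c : ℝ) + 1.5 * y + 44 ≤ n / 2 := by linarith
    have h4 : 9 ≤ y := by
      by_contra hcon
      push Not at hcon
      nlinarith
    have h1 : (((n / s + c) + s + 112 : ℕ) : ℝ) ≤ ((D' : ℕ) : ℝ) := by
      push_cast
      linarith
    exact_mod_cast h1
  have N5 : (n / s + c) + 2 * s + 16 ≤ D' := by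
    have h1 : (((n / s + c) + 2 * s + 16 : ℕ) : ℝ) ≤ ((D' : ℕ) : ℝ) := by
      push_cast
      nlinarith [sq_nonneg (y - 5 / 2)]
    exact_mod_cast h1
  obtain ⟨A1, A2⟩ := covered hH
  let U : Finset V := Finset.univ.filter (fun v => ∃ x, H.Adj v x)
  have hU : ∀ v, v ∈ U ↔ ∃ x, H.Adj v x := by
    intro v
    simp only [U, Finset.mem_filter, Finset.mem_univ, true_and]
  let e0 : V → Fin (D' + 2) := fun u => if h : ∃ x, H.Adj u x then g0 s(u, h.choose) else f0 u
  have he : ∀ u v, H.Adj u v → e0 u = g0 s(u, v) := by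
    intro u v huv
    have h1 : ∃ x, H.Adj u x := ⟨v, huv⟩
    simp only [e0]
    rw [dif_pos h1, hH.matching u _ v h1.choose_spec huv]
  obtain ⟨F, Γ, r1, r2, r3, r4, r5, r6⟩ := Pool.Agent.D0H38.TD.exact6 hPM hVB hHALL hBIN hSUM hSUM1
    hCNT hSPC hBLK G H D' c s U κ (fun u v h => κ.valid h) f0 e0 hH.le hH.matching hU
    (fun u hu v hv huv => A1 u v huv ((hU u).1 hu) ((hU v).1 hv))
    (fun u hu v hv huv x h h' => A2 x u v h.symm h'.symm ((hU u).1 hu) ((hU v).1 hv) huv)
    (fun u v h => h0.1 u v h)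
    (fun u v h => by rw [he u v h, he v u h.symm, Sym2.eq_swap])
    (fun u hu => by
      obtain ⟨v, hv⟩ := (hU u).1 hu
      rw [he u v hv]
      exact h0.2.2 u v hv)
    (fun v => (hD v).trans hDD) hs0 N1 N4 N5
  let gg : Sym2 V → Fin (D' + 2) := Sym2.lift ⟨fun u v => if G.Adj u v then Γ u v else 0, by
    intro u v
    by_cases h : G.Adj u v
    · simp only [if_pos h, if_pos h.symm]
      exact r1 u v h
    · simp only [if_neg h, if_neg (fun h' : G.Adj v u => h h'.symm)]⟩
  have hgg : ∀ u v, G.Adj u v → gg s(u, v) = Γ u v := by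
    intro u v h
    simp only [gg, Sym2.lift_mk, if_pos h]
  refine ⟨F, gg, ⟨r2, ?_, ?_⟩, ?_⟩
  · intro u v w h h' hne
    rw [hgg u v h, hgg u w h']
    exact r3 u v w h h' hne
  · intro u v h
    rw [hgg u v h]
    exact r4 u v h
  · intro u v h
    refine ⟨r5 u ((hU u).2 ⟨v, h⟩), ?_⟩
    rw [hgg u v (hH.le h), r6 u v h, he u v h]

/-- Let `G` be a graph with `n` vertices and a proper vertex colouring with `c` colours, such that all degrees
of `G` are at least `δ` and at most `D`, where `D ≥ n / 2 + 2 c + 2 √n` or `δ ≥ n / 2 + c + √(2 n)`.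
Let `K ≥ D + 2`.

1. `G` has a total colouring with `K` colours.

2. Every total colouring with `K` colours of a subgraph of `G` with at most one edge extends to a total
colouring of `G` with `K` colours.

3. If `D ≥ n / 2 + 2 c + 2 √n + 60`, or if `2 δ ≥ n` (for example, if `δ ≥ n / 2 + c + √(2 n)`), or if any two
vertices of `G` have distance at most `2`, then every total colouring with `K` colours of a distance-3
matching of `G` extends to a total colouring of `G` with `K` colours. -/
theorem result (V : Type) [Fintype V] (G : SimpleGraph V) (δ D c K : ℕ)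
    (hδ : ∀ v, δ ≤ (G.neighborSet v).ncard) (hD : ∀ v, (G.neighborSet v).ncard ≤ D)
    (hG : G.Colorable c)
    (h : (Fintype.card V : ℝ) / 2 + 2 * c + 2 * Real.sqrt (Fintype.card V) ≤ D ∨
      (Fintype.card V : ℝ) / 2 + c + Real.sqrt (2 * Fintype.card V) ≤ δ)
    (hK : D + 2 ≤ K) :
    (∃ (f : V → Fin K) (g : Sym2 V → Fin K), IsTotal G f g) ∧
    (∀ H : SimpleGraph V, AtMostOneEdge G H → Extends G H K) ∧
    ((Fintype.card V : ℝ) / 2 + 2 * c + 2 * Real.sqrt (Fintype.card V) + 60 ≤ D ∨
        Fintype.card V ≤ 2 * δ ∨ (∀ u v, G.edist u v ≤ 2) →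
      ∀ H : SimpleGraph V, IsDistThreeMatching G H → Extends G H K) := by
  have h1 : ∃ (f : V → Fin K) (g : Sym2 V → Fin K), IsTotal G f g := by
    rcases h with h | h
    · exact main Pool.Agent.D0H2.TD.Pm2.t_PM2 Pool.Agent.D0H2.TD.Dec2.t_DEC2
        Pool.Agent.D0H2.TD.Dec2.t_DEC3 G D c K hD hG h hK
    · exact main_min Pool.Agent.D0H70.TD.t_PM Pool.Agent.D0H2.TD.Dec.t_DEC G D δ c K hD hδ hG h hK
  have h2 : ∀ H : SimpleGraph V, AtMostOneEdge G H → Extends G H K :=
    fun H hH => one_edge Pool.Agent.D0H2.TD.Perm.t_PERM G H K h1 hH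
  refine ⟨h1, h2, fun h' H hH => ?_⟩
  rcases h' with h' | h' | h'
  · exact five Pool.Agent.D0H2.TD.Pm2.t_PM2
      (Pool.Agent.D0H58.TE.t_VB Pool.Agent.D0H58.TE.t_VSP) Pool.Agent.D0H20.TE.t_HALL2
      Pool.Agent.D0H9.TE.t_BIN Pool.Agent.D0H20.TE.t_SUM Pool.Agent.D0H87.TE.t_SUM1
      Pool.Agent.D0H2.TE.t_CNT2 Pool.Agent.D0H2.TE.t_SPC2 Pool.Agent.D0H2.TE.t_BLK2 G D c K hD hG
      h' hK H hH
  · exact h2 H (one_of_edist (near G δ hδ h') hH)
  · exact h2 H (one_of_edist h' hH)

end Pool.Agent.Results.MP_db9399_co.LargeMaximumDegree
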