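import Mathlib
import Pool.Agent.D0H38.TD.Main

/-!
# Extending total colourings of distance-3 matchings with `Δ + 6` colours, small chromatic number

Let `G` be a graph with all degrees at most `D` whose vertices can be properly coloured with `c` colours, and
let `y = 8.5 c √(log (8 D²) / D) + 27 c² / D`. Every total colouring of a distance-3 matching of `G`
with `K ≥ D + 6 + ⌊y⌋` colours extends to a total colouring of `G` with the same `K` colours. So `D + 6`
colours suffice if `200 c² log (D + 1) ≤ D`, and `D + O(√(log D))` colours if `c = O(√D)`. (The empty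
matching gives bounds for the total chromatic number.)

Method. The vertices outside the matching `H` get colours from a set of `3 c` colours. By the local lemma
there is a set `X` of vertices such that every vertex has nearly as many neighbours in `X` as outside
`X`. Let `r = 3 c - 2`. One class of an equitable edge colouring (de Werra) of the bipartite graph between
`X` and the other vertices is a subgraph `F` of maximum degree at most `r` such that all degrees of the
graph without `F` are at most `D - r + t`, where `t = 1 + ⌊y⌋`. The edges of `F` are coloured with the `3 c`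
colours of the vertices, avoiding the colours of the ends, by Galvin's theorem, since `3 c - 2 = r`. The
other edges outside `H` are coloured by Vizing's theorem with `D - r + t + 1` new colours. Together
these are `D + t + 3` colours; the conflicts with the precoloured elements are removed with two
additional colours, by a local change at each edge of `H`, which uses these colours and an exchange
between the two ends of the edge.
-/

set_option autoImplicit false

namespace Pool.Agent.Results.MP_db9399_co.SmallChromaticNumber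

/-- `f` (colours of the vertices) and `g` (colours of the edges) form a total colouring of `G`
with colours from `Fin K`: adjacent vertices have different colours, edges that share an end have
different colours, and the colour of an edge differs from the colours of its ends.  (The values of
`g` on pairs that are not edges are irrelevant.) -/
def IsTotal {V : Type} (G : SimpleGraph V) {K : ℕ} (f : V → Fin K) (g : Sym2 V → Fin K) : Prop :=
  (∀ u v, G.Adj u v → f u ≠ f v) ∧
  (∀ u v w, G.Adj u v → G.Adj u w → v ≠ w → g s(u, v) ≠ g s(u, w)) ∧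
  ∀ u v, G.Adj u v → g s(u, v) ≠ f u

/-- The edges of `H` form a distance-3 matching of `G`: they are edges of `G`, no two of them share an
end, and the ends of different edges are at distance at least `3` in `G`. -/
structure IsDistThreeMatching {V : Type} (G H : SimpleGraph V) : Prop where
  le : H ≤ G
  matching : ∀ u v w, H.Adj u v → H.Adj u w → v = w
  dist : ∀ u v x y, H.Adj u v → H.Adj x y → s(u, v) ≠ s(x, y) → 3 ≤ G.edist u x

/-- Every total colouring with `K` colours of a distance-3 matching of `G` extends to a total colouring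
of `G` with `K` colours. -/
def ExtendsMatchings {V : Type} (G : SimpleGraph V) (K : ℕ) : Prop :=
  ∀ (H : SimpleGraph V) (f0 : V → Fin K) (g0 : Sym2 V → Fin K),
    IsDistThreeMatching G H → IsTotal H f0 g0 →
    ∃ (f : V → Fin K) (g : Sym2 V → Fin K), IsTotal G f g ∧
      ∀ u v, H.Adj u v → f u = f0 u ∧ g s(u, v) = g0 s(u, v)

/-- the number of additional colours, up to rounding -/
noncomputable def excess (D c : ℕ) : ℝ :=
  17 / 2 * c * Real.sqrt (Real.log (8 * (D : ℝ) ^ 2) / D) + 27 * (c : ℝ) ^ 2 / D

theorem log_nonneg' (D : ℕ) (hD : 1 ≤ D) : 0 ≤ Real.log (8 * (D : ℝ) ^ 2) := by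
  have hD' : (1 : ℝ) ≤ D := by exact_mod_cast hD
  exact Real.log_nonneg (by nlinarith)

theorem numbers (D c t : ℕ) (hD : 1 ≤ D) (h : excess D c ≤ t) :
    ∃ x : ℝ, 0 ≤ x ∧ (D : ℝ) * Real.log (8 * (D : ℝ) ^ 2) ≤ 2 * x ^ 2 ∧
      4 * x * ((3 * c - 2 : ℕ) : ℝ) + 3 * (((3 * c - 2 : ℕ) : ℝ)) ^ 2 ≤ t * D := by
  have hD' : (1 : ℝ) ≤ D := by exact_mod_cast hD
  have hD0 : (0 : ℝ) < D := by linarith
  have hL0 := log_nonneg' D hD
  unfold excess at h
  set L : ℝ := Real.log (8 * (D : ℝ) ^ 2) with hL
  set r : ℝ := ((3 * c - 2 : ℕ) : ℝ) with hr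
  have hr0 : 0 ≤ r := by positivity
  have hc0 : (0 : ℝ) ≤ c := by positivity
  have hr3 : r ≤ 3 * c := by
    rw [hr]
    have : ((3 * c - 2 : ℕ) : ℝ) ≤ ((3 * c : ℕ) : ℝ) := by
      exact_mod_cast Nat.sub_le _ _
    refine this.trans (le_of_eq ?_)
    push_cast
    ring
  have hr2 : r ^ 2 ≤ 9 * (c : ℝ) ^ 2 := by nlinarith
  refine ⟨Real.sqrt (D * L / 2), Real.sqrt_nonneg _, ?_, ?_⟩
  · rw [Real.sq_sqrt (by positivity)]
    linarith
  · have h1 : 12 * Real.sqrt (D * L / 2) ≤ 17 / 2 * Real.sqrt (L / D) * D := by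
      apply le_of_sq_le_sq _ (by positivity)
      rw [mul_pow, mul_pow, mul_pow, Real.sq_sqrt (by positivity), Real.sq_sqrt (by positivity)]
      have h2 : L / D * (D : ℝ) ^ 2 = D * L := by field_simp
      have h3 : 0 ≤ D * L := by positivity
      nlinarith
    have h2 : 4 * Real.sqrt (D * L / 2) * r ≤ c * (17 / 2 * Real.sqrt (L / D) * D) := by
      have h3 : 4 * Real.sqrt (D * L / 2) * r ≤ 4 * Real.sqrt (D * L / 2) * (3 * c) :=
        mul_le_mul_of_nonneg_left hr3 (by positivity)
      have h4 : c * (12 * Real.sqrt (D * L / 2)) ≤ c * (17 / 2 * Real.sqrt (L / D) * D) :=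
        mul_le_mul_of_nonneg_left h1 hc0
      linarith
    have h5 := mul_le_mul_of_nonneg_right h hD0.le
    have h6 : 27 * (c : ℝ) ^ 2 / D * D = 27 * (c : ℝ) ^ 2 := by field_simp
    nlinarith

theorem small (D c : ℕ) (hD : 1 ≤ D) (hc : 1 ≤ c)
    (h : 200 * (c : ℝ) ^ 2 * Real.log (D + 1) ≤ D) : excess D c < 1 := by
  have hD' : (1 : ℝ) ≤ D := by exact_mod_cast hD
  have hD0 : (0 : ℝ) < D := by linarith
  have hc' : (1 : ℝ) ≤ c := by exact_mod_cast hc
  have hc2 : (1 : ℝ) ≤ (c : ℝ) ^ 2 := by nlinarith
  have hL0 := log_nonneg' D hD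
  unfold excess
  set l : ℝ := Real.log (D + 1) with hl
  have hl1 : Real.log 2 ≤ l := Real.log_le_log (by norm_num) (by linarith)
  have hl2 : (0.69 : ℝ) ≤ l := by linarith [Real.log_two_gt_d9]
  have hD2 : (138 : ℝ) ≤ D := by nlinarith
  have hl4 : 4 ≤ l := by
    rw [hl, Real.le_log_iff_exp_le (by linarith)]
    have h1 : Real.exp 4 = Real.exp 1 ^ 4 := by
      rw [← Real.exp_nat_mul]
      norm_num
    rw [h1]
    have h2 : Real.exp 1 ^ 4 ≤ 2.72 ^ 4 :=
      pow_le_pow_left₀ (Real.exp_pos _).le (by linarith [Real.exp_one_lt_d9]) 4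
    refine h2.trans ?_
    norm_num
    linarith
  set L : ℝ := Real.log (8 * (D : ℝ) ^ 2) with hL
  have hLl : L ≤ 2.52 * l := by
    have h1 : L = 3 * Real.log 2 + 2 * Real.log D := by
      rw [hL, Real.log_mul (by norm_num) (by positivity), Real.log_pow]
      have : (8 : ℝ) = 2 ^ 3 := by norm_num
      rw [this, Real.log_pow]
      push_cast
      ring
    have h2 : Real.log D ≤ l := Real.log_le_log (by linarith) (by linarith)
    have h3 := Real.log_two_lt_d9
    linarith
  have hcl : (c : ℝ) ^ 2 * l ≤ D / 200 := by linarith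
  have hcc : (c : ℝ) ^ 2 ≤ D / 800 := by nlinarith
  have h1 : 27 * (c : ℝ) ^ 2 / D ≤ 27 / 800 := by
    rw [div_le_iff₀ hD0]
    linarith
  have h2 : 17 / 2 * c * Real.sqrt (L / D) ≤ 0.96 := by
    apply le_of_sq_le_sq _ (by norm_num)
    rw [mul_pow, mul_pow, Real.sq_sqrt (by positivity)]
    have h3 : (c : ℝ) ^ 2 * L ≤ 2.52 * (D / 200) := by
      have := mul_le_mul_of_nonneg_left hLl (by positivity : (0 : ℝ) ≤ (c : ℝ) ^ 2)
      linarith
    have h4 : (17 / 2 : ℝ) ^ 2 * (c : ℝ) ^ 2 * (L / D) = (17 / 2 : ℝ) ^ 2 * ((c : ℝ) ^ 2 * L) / D := by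
      ring
    rw [h4, div_le_iff₀ hD0]
    linarith
  linarith

theorem covered {V : Type} {G H : SimpleGraph V} (hH : IsDistThreeMatching G H) :
    (∀ u v, G.Adj u v → (∃ x, H.Adj u x) → (∃ y, H.Adj v y) → H.Adj u v) ∧
    (∀ q p p', G.Adj q p → G.Adj q p' → (∃ x, H.Adj p x) → (∃ y, H.Adj p' y) → p ≠ p' →
      H.Adj p p') := by
  constructor
  · rintro u v huv ⟨x, hx⟩ ⟨y, hy⟩
    by_contra h
    have hne : s(u, x) ≠ s(v, y) := by
      intro he
      rw [Sym2.eq_iff] at he
      rcases he with ⟨rfl, -⟩ | ⟨rfl, rfl⟩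
      · exact huv.ne rfl
      · exact h hx
    have h3 := hH.dist u x v y hx hy hne
    have h4 : G.edist u v = 1 := SimpleGraph.edist_eq_one_iff_adj.2 huv
    rw [h4] at h3
    exact absurd h3 (by norm_num)
  · rintro q p p' h1 h2 ⟨x, hx⟩ ⟨y, hy⟩ hpp
    by_contra h
    have hne : s(p, x) ≠ s(p', y) := by
      intro he
      rw [Sym2.eq_iff] at he
      rcases he with ⟨rfl, -⟩ | ⟨rfl, rfl⟩
      · exact hpp rfl
      · exact h hx
    have h3 := hH.dist p x p' y hx hy hne
    have h4 : G.edist p q = 1 := SimpleGraph.edist_eq_one_iff_adj.2 h1.symm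
    have h5 : G.edist q p' = 1 := SimpleGraph.edist_eq_one_iff_adj.2 h2
    have h6 := SimpleGraph.edist_triangle (G := G) (u := p) (v := q) (w := p')
    rw [h4, h5] at h6
    have h7 := h3.trans h6
    exact absurd h7 (by norm_num)

theorem main {V : Type} [Fintype V] (G : SimpleGraph V) (D c t K : ℕ)
    (hD : ∀ v, (G.neighborSet v).ncard ≤ D) (hG : G.Colorable c)
    (ht : 1 ≤ D → 1 ≤ c → excess D c ≤ t) (hK : D + t + 5 ≤ K) : ExtendsMatchings G K := by
  classical
  have hK0 : 0 < K := by omega
  have : NeZero K := ⟨hK0.ne'⟩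
  intro H f0 g0 hH h0
  by_cases hE : ∃ u v, G.Adj u v
  · obtain ⟨u0, v0, huv0⟩ := hE
    have hD1 : 1 ≤ D := by
      refine le_trans ?_ (hD u0)
      exact (Set.ncard_pos (Set.toFinite _)).2 ⟨v0, huv0⟩
    have hc1 : 1 ≤ c := by
      rcases Nat.eq_zero_or_pos c with rfl | h
      · obtain ⟨κ⟩ := hG
        exact absurd (κ u0).2 (by omega)
      · exact h
    obtain ⟨x, hx, hlog, hx2⟩ := numbers D c t hD1 (ht hD1 hc1)
    obtain ⟨A1, A2⟩ := covered hH
    obtain ⟨f, g, gs, fp, gp, gf, f1, g1, f2, g2⟩ := Pool.Agent.D0H38.TD.core G H c D t hc1 hD1 x hG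
      hD hx hlog hx2 hH.matching A1 A2 (fun v => (f0 v : ℕ)) (fun u v => (g0 s(u, v) : ℕ))
      (fun u v h e => h0.1 u v h (Fin.ext e))
      (fun u v _ => by rw [Sym2.eq_swap])
      (fun u v h e => h0.2.2 u v h (Fin.ext e))
    have fK : ∀ u, f u < K := by
      intro u
      rcases f2 u with h | h
      · rw [f1 u h]
        exact (f0 u).2
      · omega
    have gK : ∀ u v, G.Adj u v → g u v < K := by
      intro u v h
      rcases g2 u v h with h' | h'
      · rw [g1 u v h']
        exact (g0 s(u, v)).2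
      · omega
    let gg : Sym2 V → Fin K := Sym2.lift ⟨fun u v => if h : G.Adj u v then ⟨g u v, gK u v h⟩ else 0, by
      intro u v
      by_cases h : G.Adj u v
      · simp only [dif_pos h, dif_pos h.symm]
        exact Fin.ext (gs u v h)
      · simp only [dif_neg h, dif_neg (fun h' : G.Adj v u => h h'.symm)]⟩
    have hgg : ∀ u v (h : G.Adj u v), gg s(u, v) = ⟨g u v, gK u v h⟩ := by
      intro u v h
      simp only [gg, Sym2.lift_mk, dif_pos h]
    refine ⟨fun v => ⟨f v, fK v⟩, gg, ⟨?_, ?_, ?_⟩, ?_⟩
    · intro u v h e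
      exact fp u v h (Fin.mk.inj e)
    · intro u v w h h' hne e
      rw [hgg u v h, hgg u w h'] at e
      exact gp u v w h h' hne (Fin.mk.inj e)
    · intro u v h e
      rw [hgg u v h] at e
      exact gf u v h (Fin.mk.inj e)
    · intro u v h
      constructor
      · exact Fin.ext (f1 u ⟨v, h⟩)
      · rw [hgg u v (hH.le h)]
        exact Fin.ext (g1 u v h)
  · push Not at hE
    refine ⟨f0, g0, ⟨?_, ?_, ?_⟩, fun u v _ => ⟨rfl, rfl⟩⟩
    · intro u v h
      exact absurd h (hE u v)
    · intro u v w h
      exact absurd h (hE u v)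
    · intro u v h
      exact absurd h (hE u v)

/-- Let all degrees of `G` be at most `D`, and let `G` have a proper vertex colouring with `c` colours.

1. For every `K ≥ D + 6 + ⌊y⌋`, where `y = 8.5 c √(log (8 D²) / D) + 27 c² / D`, every total colouring
with `K` colours of a distance-3 matching of `G` extends to a total colouring of `G` with `K` colours.

2. If `200 c² log (D + 1) ≤ D`, then this holds for every `K ≥ D + 6`. -/
theorem result (V : Type) [Fintype V] (G : SimpleGraph V) (D c : ℕ)
    (hD : ∀ v, (G.neighborSet v).ncard ≤ D) (hG : G.Colorable c) :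
    (∀ K : ℕ, D + 6 + ⌊excess D c⌋₊ ≤ K → ExtendsMatchings G K) ∧
    (200 * (c : ℝ) ^ 2 * Real.log (D + 1) ≤ D → ∀ K : ℕ, D + 6 ≤ K → ExtendsMatchings G K) := by
  constructor
  · intro K hK
    refine main G D c (⌊excess D c⌋₊ + 1) K hD hG (fun _ _ => ?_) (by omega)
    push_cast
    exact (Nat.lt_floor_add_one _).le
  · intro h K hK
    refine main G D c 1 K hD hG (fun h1 h2 => ?_) (by omega)
    have := small D c h1 h2 h
    push_cast
    exact this.le

end Pool.Agent.Results.MP_db9399_co.SmallChromaticNumber
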